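import Mathlib

/-!
# Homology of Vietoris-Rips complexes of hypercubes is not always multiplicity-free

The complex `VR(Q_10; 8)`: an antipodal code with 266 points whose stabiliser in the
hyperoctahedral group is `{1, -1}` gives a cross-polytopal cycle containing a facet, and its
translates span a copy of the part of the regular representation on which `-1` acts by `-1`.
-/

open Representation

namespace Pool.Agent.Results.MP_d0402e_co.NotMultFree

/-! ### The cube, the hyperoctahedral group, and auxiliary forms of the definitions -/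

/-- Vertices of the `n`-dimensional hypercube. -/
abbrev Q (n : ℕ) : Type := Fin n → Bool

/-- The hyperoctahedral group: permutations of the coordinates and flips of coordinates. -/
@[ext] structure Hyp (n : ℕ) : Type where
  /-- the permutation of the coordinates -/
  perm : Equiv.Perm (Fin n)
  /-- the flipped coordinates -/
  flip : Fin n → Bool

instance (n : ℕ) : Mul (Hyp n) :=
  ⟨fun a b => ⟨a.perm * b.perm, fun i => xor (a.flip i) (b.flip (a.perm.symm i))⟩⟩

instance (n : ℕ) : One (Hyp n) := ⟨⟨1, fun _ => false⟩⟩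

instance (n : ℕ) : Inv (Hyp n) := ⟨fun a => ⟨a.perm⁻¹, fun i => a.flip (a.perm i)⟩⟩

theorem mul_def {n : ℕ} (a b : Hyp n) :
    a * b = ⟨a.perm * b.perm, fun i => xor (a.flip i) (b.flip (a.perm.symm i))⟩ := rfl

theorem one_def {n : ℕ} : (1 : Hyp n) = ⟨1, fun _ => false⟩ := rfl

theorem inv_def {n : ℕ} (a : Hyp n) : a⁻¹ = ⟨a.perm⁻¹, fun i => a.flip (a.perm i)⟩ := rfl

instance (n : ℕ) : Group (Hyp n) where
  mul_assoc a b c := by
    simp only [mul_def, Hyp.mk.injEq]
    refine ⟨mul_assoc _ _ _, ?_⟩
    funext i
    simp only [Bool.xor_assoc]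
    rfl
  one_mul a := by
    simp only [mul_def, one_def]
    ext i
    · simp
    · simp only [Bool.false_xor]
      rfl
  mul_one a := by
    simp only [mul_def, one_def]
    ext i
    · simp
    · simp
  inv_mul_cancel a := by
    simp only [mul_def, one_def, inv_def, Hyp.mk.injEq]
    refine ⟨inv_mul_cancel _, ?_⟩
    funext i
    have : (a.perm⁻¹).symm i = a.perm i := rfl
    rw [this]
    simp

/-- The action of the hyperoctahedral group on the vertices of the hypercube. -/
def act {n : ℕ} (a : Hyp n) (x : Q n) : Q n := fun i => xor (a.flip i) (x (a.perm.symm i))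

theorem act_mul {n : ℕ} (a b : Hyp n) (x : Q n) : act (a * b) x = act a (act b x) := by
  funext i
  simp only [act, mul_def, Bool.xor_assoc]
  rfl

theorem act_one {n : ℕ} (x : Q n) : act 1 x = x := by
  funext i
  simp only [act, one_def, Bool.false_xor]
  rfl

section chains

variable (k : Type) [Field k]

/-- The action of the hyperoctahedral group on functions of `m` vertices. -/
def funRep (n m : ℕ) : Representation k (Hyp n) ((Fin m → Q n) → k) where
  toFun a := LinearMap.funLeft k k (fun v j => act a⁻¹ (v j))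
  map_one' := by
    ext f v
    simp [LinearMap.funLeft, act_one]
  map_mul' a b := by
    refine LinearMap.ext fun f => funext fun v => ?_
    simp [LinearMap.funLeft, _root_.mul_inv_rev, act_mul]

/-- Simplicial chains of the Vietoris-Rips complex `VR(Q_n; r)` on `m` vertices: the alternating
functions of `m` vertices (the value at `(v_1, ..., v_m)` is the coefficient of the oriented
simplex `[v_1, ..., v_m]`) that vanish unless all distances of the vertices are at most `r`. -/
def Chains (n r m : ℕ) : Submodule k ((Fin m → Q n) → k) where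
  carrier := {f | (∀ (π : Equiv.Perm (Fin m)) (v : Fin m → Q n),
      f (fun j => v (π j)) = ((Equiv.Perm.sign π : ℤ) : k) * f v) ∧
    ∀ v : Fin m → Q n, (¬ ∀ i j, hammingDist (v i) (v j) ≤ r) → f v = 0}
  zero_mem' := ⟨fun _ _ => by simp, fun _ _ => rfl⟩
  add_mem' {f g} hf hg := ⟨fun π v => by
      simp only [Pi.add_apply, hf.1 π v, hg.1 π v, mul_add],
    fun v hv => by simp only [Pi.add_apply, hf.2 v hv, hg.2 v hv, add_zero]⟩
  smul_mem' c f hf := ⟨fun π v => by
      simp only [Pi.smul_apply, hf.1 π v, smul_eq_mul]; ring,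
    fun v hv => by simp only [Pi.smul_apply, hf.2 v hv, smul_zero]⟩

/-- The boundary map: the coefficient of `[v_1, ..., v_m]` in the boundary of `f` is the sum of
the coefficients `f(x, v_1, ..., v_m)` over all vertices `x`. -/
def bd (n m : ℕ) : ((Fin (m + 1) → Q n) → k) →ₗ[k] ((Fin m → Q n) → k) where
  toFun f v := ∑ x : Q n, f (Fin.cons x v)
  map_add' f g := by funext v; simp [Finset.sum_add_distrib]
  map_smul' c f := by funext v; simp [Finset.mul_sum]

/-- The `i`-cycles (all `0`-chains are cycles). -/
def Cycles (n r i : ℕ) : Submodule k ((Fin (i + 1) → Q n) → k) :=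
  if i = 0 then Chains k n r (i + 1) else Chains k n r (i + 1) ⊓ LinearMap.ker (bd k n i)

/-- The `i`-boundaries. -/
def Boundaries (n r i : ℕ) : Submodule k ((Fin (i + 1) → Q n) → k) :=
  (Chains k n r (i + 2)).map (bd k n (i + 1))

/-- The `i`-th homology of `VR(Q_n; r)` with coefficients in `k`. -/
abbrev Homology (n r i : ℕ) : Type :=
  Cycles k n r i ⧸ (Boundaries k n r i).submoduleOf (Cycles k n r i)

variable {k}

theorem dist_act {n : ℕ} (a : Hyp n) (x y : Q n) :
    hammingDist (act a x) (act a y) = hammingDist x y := by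
  unfold hammingDist
  refine Finset.card_bij (fun i _ => a.perm.symm i) ?_ ?_ ?_
  · intro i hi
    rw [Finset.mem_filter] at hi ⊢
    refine ⟨Finset.mem_univ _, fun h => hi.2 ?_⟩
    simp only [act, h]
  · intro i _ j _ h
    exact a.perm.symm.injective h
  · intro i hi
    refine ⟨a.perm i, ?_, by simp⟩
    rw [Finset.mem_filter] at hi ⊢
    refine ⟨Finset.mem_univ _, fun h => hi.2 ?_⟩
    simpa [act] using h

theorem funRep_apply {n m : ℕ} (a : Hyp n) (f : (Fin m → Q n) → k) (v : Fin m → Q n) :
    funRep k n m a f v = f (fun j => act a⁻¹ (v j)) := rfl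

theorem chains_stable {n r m : ℕ} (a : Hyp n) {f : (Fin m → Q n) → k}
    (hf : f ∈ Chains k n r m) : funRep k n m a f ∈ Chains k n r m := by
  refine ⟨fun π v => ?_, fun v hv => ?_⟩
  · rw [funRep_apply, funRep_apply]
    exact hf.1 π (fun j => act a⁻¹ (v j))
  · rw [funRep_apply]
    apply hf.2
    intro h
    apply hv
    intro i j
    have := h i j
    rwa [dist_act] at this

/-- The action as a permutation of the vertices. -/
def actEquiv {n : ℕ} (a : Hyp n) : Q n ≃ Q n where
  toFun := act a
  invFun := act a⁻¹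
  left_inv x := by rw [← act_mul, inv_mul_cancel, act_one]
  right_inv x := by rw [← act_mul, mul_inv_cancel, act_one]

theorem bd_equivariant {n m : ℕ} (a : Hyp n) (f : (Fin (m + 1) → Q n) → k) :
    bd k n m (funRep k n (m + 1) a f) = funRep k n m a (bd k n m f) := by
  funext v
  rw [funRep_apply]
  show ∑ x : Q n, funRep k n (m + 1) a f (Fin.cons x v) =
    ∑ x : Q n, f (Fin.cons x (fun j => act a⁻¹ (v j)))
  refine Fintype.sum_equiv (actEquiv a⁻¹) _ _ fun x => ?_
  rw [funRep_apply]
  congr 1
  funext j
  refine Fin.cases ?_ (fun j => ?_) j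
  · rfl
  · rfl

theorem cycles_stable {n r i : ℕ} (a : Hyp n) {f : (Fin (i + 1) → Q n) → k}
    (hf : f ∈ Cycles k n r i) : funRep k n (i + 1) a f ∈ Cycles k n r i := by
  unfold Cycles at hf ⊢
  split_ifs at hf ⊢ with h
  · exact chains_stable a hf
  · refine ⟨chains_stable a hf.1, ?_⟩
    have := hf.2
    simp only [SetLike.mem_coe, LinearMap.mem_ker] at this ⊢
    rw [bd_equivariant, this, map_zero]

theorem boundaries_stable {n r i : ℕ} (a : Hyp n) {f : (Fin (i + 1) → Q n) → k}
    (hf : f ∈ Boundaries k n r i) : funRep k n (i + 1) a f ∈ Boundaries k n r i := by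
  obtain ⟨g, hg, rfl⟩ := hf
  exact ⟨_, chains_stable a hg, bd_equivariant a g⟩

variable (k)

/-- The representation of the hyperoctahedral group on the homology of `VR(Q_n; r)`. -/
def homRep (n r i : ℕ) : Representation k (Hyp n) (Homology k n r i) :=
  ((funRep k n (i + 1)).subrepresentation (Cycles k n r i)
    (fun a _ hf => cycles_stable a hf)).quotient
    ((Boundaries k n r i).submoduleOf (Cycles k n r i))
    (fun a _ hf => boundaries_stable a hf)

end chains

/-- A representation is multiplicity-free if no irreducible representation `τ` occurs twice,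
that is, if there is no injective intertwining map from `τ ⊕ τ`. -/
def MultiplicityFree {k G V : Type} [Field k] [Group G] [AddCommGroup V] [Module k V]
    (ρ : Representation k G V) : Prop :=
  ∀ (W : Type) [AddCommGroup W] [Module k W] (τ : Representation k G W), τ.IsIrreducible →
    ¬ ∃ f : IntertwiningMap (τ.prod τ) ρ, Function.Injective f

/-! ### Antipodes -/

/-- The antipode. -/
def anti {n : ℕ} (x : Q n) : Q n := fun i => !x i

/-- The element `-1` of the hyperoctahedral group. -/
def neg1 (n : ℕ) : Hyp n := ⟨1, fun _ => true⟩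

theorem act_neg1 {n : ℕ} (x : Q n) : act (neg1 n) x = anti x := by
  funext i
  simp only [act, neg1, anti, Bool.true_xor]
  rfl

@[simp] theorem anti_anti {n : ℕ} (x : Q n) : anti (anti x) = x := by
  funext i; simp [anti]

theorem anti_apply {n : ℕ} (x : Q n) (i : Fin n) : anti x i = !x i := rfl

theorem act_anti {n : ℕ} (a : Hyp n) (x : Q n) : act a (anti x) = anti (act a x) := by
  funext i
  simp only [act, anti]
  cases a.flip i <;> cases x (a.perm.symm i) <;> rfl

theorem neg1_mul {n : ℕ} (a : Hyp n) : neg1 n * a = a * neg1 n := by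
  simp only [mul_def, neg1, Hyp.mk.injEq]
  refine ⟨by simp, ?_⟩
  funext i
  rw [Bool.xor_comm]
  rfl

theorem neg1_sq (n : ℕ) : neg1 n * neg1 n = 1 := by
  simp only [mul_def, neg1, one_def, Hyp.mk.injEq]
  exact ⟨by simp, by funext i; simp⟩

theorem neg1_inv (n : ℕ) : (neg1 n)⁻¹ = neg1 n := inv_eq_of_mul_eq_one_left (neg1_sq n)

theorem dist_anti {n : ℕ} (x y : Q n) : hammingDist x (anti y) + hammingDist x y = n := by
  have h1 : hammingDist x (anti y) = (Finset.univ.filter fun i => x i = y i).card := by
    unfold hammingDist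
    congr 1
    ext i
    rw [Finset.mem_filter, Finset.mem_filter, anti_apply]
    generalize x i = a
    generalize y i = b
    cases a <;> cases b <;> simp
  rw [h1]
  unfold hammingDist
  have h := Finset.card_filter_add_card_filter_not (s := (Finset.univ : Finset (Fin n)))
    (fun i => x i = y i)
  simpa using h

/-! ### The signed permutation representation -/

section signed

variable (k : Type) [Field k]

/-- The sign of a Boolean. -/
def sgn (b : Bool) : k := if b then -1 else 1

theorem sgn_xor (a b : Bool) : sgn k (xor a b) = sgn k a * sgn k b := by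
  cases a <;> cases b <;> simp [sgn]

/-- The signed permutation representation. -/
def sp (n : ℕ) : Representation k (Hyp n) (Fin n → k) where
  toFun a :=
    { toFun := fun w i => sgn k (a.flip i) * w (a.perm.symm i)
      map_add' := fun w w' => by funext i; simp [mul_add]
      map_smul' := fun c w => by funext i; simp [mul_left_comm] }
  map_one' := by
    refine LinearMap.ext fun w => funext fun i => ?_
    show sgn k false * w i = w i
    simp [sgn]
  map_mul' a b := by
    refine LinearMap.ext fun w => funext fun i => ?_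
    show sgn k (xor (a.flip i) (b.flip (a.perm.symm i))) * w ((a.perm * b.perm).symm i) =
      sgn k (a.flip i) * (sgn k (b.flip (a.perm.symm i)) * w (b.perm.symm (a.perm.symm i)))
    rw [sgn_xor, mul_assoc]
    rfl

variable {k}

theorem sp_apply {n : ℕ} (a : Hyp n) (w : Fin n → k) (i : Fin n) :
    sp k n a w i = sgn k (a.flip i) * w (a.perm.symm i) := rfl

theorem sp_neg1 {n : ℕ} (w : Fin n → k) : sp k n (neg1 n) w = -w := by
  funext i
  rw [sp_apply]
  show sgn k true * w i = - w i
  simp [sgn]

theorem sp_irreducible [CharZero k] {n : ℕ} (hn : 0 < n) : (sp k n).IsIrreducible := by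
  have hne : (⊥ : Subrepresentation (sp k n)) ≠ ⊤ := by
    intro h
    have h1 : (Pi.single ⟨0, hn⟩ 1 : Fin n → k) ∈ (⊤ : Subrepresentation (sp k n)).toSubmodule :=
      Submodule.mem_top
    rw [← h] at h1
    have h2 : (Pi.single ⟨0, hn⟩ 1 : Fin n → k) = 0 := (Submodule.mem_bot k).1 h1
    have h3 := congrFun h2 ⟨0, hn⟩
    simp at h3
  refine { exists_pair_ne := ⟨⊥, ⊤, hne⟩, eq_bot_or_eq_top := fun U => ?_ }
  by_cases hU : ∃ u ∈ U.toSubmodule, u ≠ 0
  · right
    obtain ⟨u, hu, hu0⟩ := hU
    obtain ⟨p, hp⟩ : ∃ p, u p ≠ 0 := by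
      by_contra h
      push Not at h
      exact hu0 (funext h)
    -- the basis vector e_p
    have h1 : (Pi.single p 1 : Fin n → k) ∈ U.toSubmodule := by
      have h2 := U.apply_mem_toSubmodule ⟨1, fun i => decide (i = p)⟩ hu
      have h3 : u - sp k n ⟨1, fun i => decide (i = p)⟩ u = (2 * u p) • Pi.single p 1 := by
        funext i
        rw [Pi.sub_apply, sp_apply, Pi.smul_apply]
        show u i - sgn k (decide (i = p)) * u i = _
        by_cases hi : i = p
        · subst hi; simp [sgn]; ring
        · simp [sgn, hi]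
      have h4 : (2 * u p) • (Pi.single p 1 : Fin n → k) ∈ U.toSubmodule := by
        rw [← h3]; exact U.toSubmodule.sub_mem hu h2
      have h5 : (2 * u p) ≠ 0 := mul_ne_zero two_ne_zero hp
      have h6 := U.toSubmodule.smul_mem (2 * u p)⁻¹ h4
      rwa [smul_smul, inv_mul_cancel₀ h5, one_smul] at h6
    have h7 : ∀ q, (Pi.single q 1 : Fin n → k) ∈ U.toSubmodule := by
      intro q
      have h2 := U.apply_mem_toSubmodule ⟨Equiv.swap p q, fun _ => false⟩ h1
      have h3 : sp k n ⟨Equiv.swap p q, fun _ => false⟩ (Pi.single p 1) = Pi.single q 1 := by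
        funext i
        rw [sp_apply]
        show sgn k false * (Pi.single p 1 : Fin n → k) ((Equiv.swap p q).symm i) = _
        rw [Equiv.symm_swap]
        simp only [sgn, Pi.single_apply]
        by_cases hi : i = q
        · subst hi; simp
        · have : Equiv.swap p q i ≠ p := by
            intro h
            rw [Equiv.swap_apply_eq_iff, Equiv.swap_apply_left] at h
            exact hi h
          simp [hi, this]
      rwa [h3] at h2
    have h8 : U.toSubmodule = ⊤ := by
      rw [eq_top_iff]
      intro w _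
      have : w = ∑ q, w q • (Pi.single q 1 : Fin n → k) := by
        funext i
        simp [Finset.sum_apply, Pi.single_apply]
      rw [this]
      exact Submodule.sum_mem _ fun q _ => U.toSubmodule.smul_mem _ (h7 q)
    exact Subrepresentation.toSubmodule_injective h8
  · left
    push Not at hU
    apply Subrepresentation.toSubmodule_injective
    exact (Submodule.eq_bot_iff _).2 hU

end signed

/-! ### The cross-polytopal cycle of an antipodal code -/

/-- Hypotheses on the transversal `A` of an antipodal code. -/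
structure Code (n r K : ℕ) (A : Fin (K + 1) → Q n) : Prop where
  lt : r < n
  pair : ∀ j l, j ≠ l → hammingDist (A j) (A l) ≤ r ∧ hammingDist (A j) (anti (A l)) ≤ r
  max : ∀ x, (∀ j, x ≠ A j) → ∃ j, r < hammingDist x (A j)
  stab : ∀ a : Hyp n, (∀ j, ∃ l, act a (A j) = A l ∨ act a (A j) = anti (A l)) →
    a = 1 ∨ a = neg1 n
  odd : Odd (K + 1)
  pos : K ≠ 0

section cyc

variable {k : Type} [Field k] {n r K : ℕ} (A : Fin (K + 1) → Q n)

/-- The matrix entries. -/
def eps (k : Type) [Field k] {n : ℕ} (x y : Q n) : k :=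
  if x = y then 1 else if x = anti y then -1 else 0

theorem eps_ne {x y : Q n} (h : eps k x y ≠ 0) : x = y ∨ x = anti y := by
  unfold eps at h
  split_ifs at h with h1 h2
  · exact Or.inl h1
  · exact Or.inr h2
  · exact absurd rfl h

theorem anti_ne (hn : 0 < n) (x : Q n) : x ≠ anti x := by
  intro h
  have := congrFun h ⟨0, hn⟩
  rw [anti_apply] at this
  cases hx : x ⟨0, hn⟩ <;> rw [hx] at this <;> exact absurd this (by simp)

theorem sum_eps (hn : 0 < n) (y : Q n) : ∑ x : Q n, eps k x y = 0 := by
  have h : ∀ x : Q n, eps k x y = (if x = y then (1 : k) else 0) +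
      (if x = anti y then (-1 : k) else 0) := by
    intro x
    unfold eps
    by_cases h1 : x = y
    · subst h1
      rw [if_pos rfl, if_pos rfl, if_neg (anti_ne hn x), add_zero]
    · rw [if_neg h1, if_neg h1, zero_add]
  simp only [h, Finset.sum_add_distrib, Finset.sum_ite_eq', Finset.mem_univ, if_true]
  ring

/-- The matrix of a tuple. -/
def mat (k : Type) [Field k] (A : Fin (K + 1) → Q n) (v : Fin (K + 1) → Q n) :
    Matrix (Fin (K + 1)) (Fin (K + 1)) k :=
  Matrix.of fun j l => eps k (v j) (A l)

/-- The cross-polytopal cycle. -/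
def zc (k : Type) [Field k] (A : Fin (K + 1) → Q n) : (Fin (K + 1) → Q n) → k :=
  fun v => (mat k A v).det

theorem zc_ne {v : Fin (K + 1) → Q n} (h : zc k A v ≠ 0) :
    ∃ π : Equiv.Perm (Fin (K + 1)), ∀ l, v (π l) = A l ∨ v (π l) = anti (A l) := by
  unfold zc at h
  rw [Matrix.det_apply] at h
  obtain ⟨π, -, hπ⟩ := Finset.exists_ne_zero_of_sum_ne_zero h
  refine ⟨π, fun l => ?_⟩
  have h1 : ∏ i, mat k A v (π i) i ≠ 0 := by
    intro h0
    rw [h0, smul_zero] at hπ
    exact hπ rfl
  rw [Finset.prod_ne_zero_iff] at h1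
  exact eps_ne (k := k) (h1 l (Finset.mem_univ l))

theorem dist_comm_anti (x y : Q n) : hammingDist (anti x) y = hammingDist x (anti y) := by
  have h1 := dist_anti x y
  have h2 := dist_anti y x
  rw [hammingDist_comm y (anti x), hammingDist_comm y x] at h2
  omega

theorem dist_anti_anti (x y : Q n) : hammingDist (anti x) (anti y) = hammingDist x y := by
  rw [dist_comm_anti, anti_anti]

theorem zc_mem (hA : Code n r K A) : zc k A ∈ Chains k n r (K + 1) := by
  refine ⟨fun π v => ?_, fun v hv => ?_⟩
  · unfold zc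
    have : mat k A (fun j => v (π j)) = (mat k A v).submatrix π id := rfl
    rw [this, Matrix.det_permute]
  · by_contra hne
    apply hv
    obtain ⟨π, hπ⟩ := zc_ne A hne
    intro i j
    obtain ⟨i, rfl⟩ := π.surjective i
    obtain ⟨j, rfl⟩ := π.surjective j
    by_cases hij : i = j
    · subst hij
      simp
    · have h := hA.pair i j hij
      rcases hπ i with h1 | h1 <;> rcases hπ j with h2 | h2 <;> rw [h1, h2]
      · exact h.1
      · exact h.2
      · rw [dist_comm_anti]; exact h.2
      · rw [dist_anti_anti]; exact h.1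

theorem bd_zc (hA : Code n r K A) : bd k n K (zc k A) = 0 := by
  funext v
  show ∑ x : Q n, zc k A (Fin.cons x v) = 0
  unfold zc
  simp only [Matrix.det_succ_row_zero]
  rw [Finset.sum_comm]
  apply Finset.sum_eq_zero
  intro l _
  have h1 : ∀ x : Q n, (-1 : k) ^ (l : ℕ) * mat k A (Fin.cons x v) 0 l *
      ((mat k A (Fin.cons x v)).submatrix Fin.succ l.succAbove).det =
      (-1 : k) ^ (l : ℕ) * (Matrix.of fun (j m : Fin K) =>
        eps k (v j) (A (l.succAbove m))).det * eps k x (A l) := by
    intro x
    have h2 : (mat k A (Fin.cons x v)).submatrix Fin.succ l.succAbove =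
        Matrix.of fun (j m : Fin K) => eps k (v j) (A (l.succAbove m)) := by
      ext j m
      simp [mat, Matrix.submatrix_apply]
    have h3 : mat k A (Fin.cons x v) 0 l = eps k x (A l) := by
      simp [mat]
    rw [h2, h3]
    ring
  rw [Finset.sum_congr rfl fun x _ => h1 x, ← Finset.mul_sum,
    sum_eps (by have := hA.lt; omega), mul_zero]

theorem zc_self (hA : Code n r K A) : zc k A A = 1 := by
  unfold zc
  have : mat k A A = 1 := by
    ext j l
    simp only [mat, Matrix.of_apply, Matrix.one_apply, eps]
    by_cases h : j = l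
    · subst h; simp
    · have h1 : A j ≠ A l := by
        intro h2
        have h3 := (hA.pair j l h).2
        have h4 := dist_anti (A j) (A l)
        rw [h2, hammingDist_self] at h4
        rw [h2] at h3
        have := hA.lt
        omega
      have h2 : A j ≠ anti (A l) := by
        intro h2
        have h3 := (hA.pair j l h).1
        have h4 := dist_anti (A l) (A l)
        rw [hammingDist_self] at h4
        rw [h2, hammingDist_comm] at h3
        have := hA.lt
        omega
      simp [h, h1, h2]
  rw [this, Matrix.det_one]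

theorem zc_anti (hA : Code n r K A) : zc k A (fun j => anti (A j)) = -1 := by
  unfold zc
  have h0 : 0 < n := by have := hA.lt; omega
  have : mat k A (fun j => anti (A j)) = - mat k A A := by
    ext j l
    simp only [mat, Matrix.of_apply, Matrix.neg_apply, eps]
    have e1 : anti (A j) = A l ↔ A j = anti (A l) :=
      ⟨fun h => by rw [← h, anti_anti], fun h => by rw [h, anti_anti]⟩
    have e2 : anti (A j) = anti (A l) ↔ A j = A l :=
      ⟨fun h => by rw [← anti_anti (A j), h, anti_anti], fun h => by rw [h]⟩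
    simp only [e1, e2]
    by_cases h1 : A j = A l
    · have h2 : ¬ A j = anti (A l) := by
        rw [h1]; exact anti_ne h0 _
      simp [h1, anti_ne h0]
    · by_cases h2 : A j = anti (A l)
      · have h3 : ¬ anti (A l) = A l := fun h => anti_ne h0 (A l) h.symm
        simp [h2, h3]
      · simp [h1, h2]
  rw [this, Matrix.det_neg]
  have h1 := zc_self (k := k) A hA
  unfold zc at h1
  rw [h1, Fintype.card_fin, hA.odd.neg_one_pow, mul_one]

/-- The coefficient functional. -/
def cf (n : ℕ) (i0 i1 : Fin n) (w : (Fin n → k) × (Fin n → k)) (a : Hyp n) : k :=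
  sp k n a⁻¹ w.1 i0 + sp k n a⁻¹ w.2 i1

instance (n : ℕ) : Fintype (Hyp n) :=
  Fintype.ofEquiv (Equiv.Perm (Fin n) × (Fin n → Bool))
    ⟨fun p => ⟨p.1, p.2⟩, fun a => (a.perm, a.flip), fun _ => rfl, fun _ => rfl⟩

/-- The linear map to functions. -/
def Phi (k : Type) [Field k] (A : Fin (K + 1) → Q n) (i0 i1 : Fin n) :
    ((Fin n → k) × (Fin n → k)) →ₗ[k] ((Fin (K + 1) → Q n) → k) where
  toFun w := ∑ a : Hyp n, cf n i0 i1 w a • funRep k n (K + 1) a (zc k A)
  map_add' w w' := by
    rw [← Finset.sum_add_distrib]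
    refine Finset.sum_congr rfl fun a _ => ?_
    rw [← add_smul]
    congr 1
    simp only [cf, Prod.fst_add, Prod.snd_add, map_add, Pi.add_apply]
    ring
  map_smul' c w := by
    rw [RingHom.id_apply, Finset.smul_sum]
    refine Finset.sum_congr rfl fun a _ => ?_
    rw [smul_smul]
    congr 1
    simp only [cf, Prod.smul_fst, Prod.smul_snd, map_smul, Pi.smul_apply, smul_eq_mul]
    ring

theorem Phi_apply (i0 i1 : Fin n) (w : (Fin n → k) × (Fin n → k)) :
    Phi k A i0 i1 w = ∑ a : Hyp n, cf n i0 i1 w a • funRep k n (K + 1) a (zc k A) := rfl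

theorem Phi_equivariant (i0 i1 : Fin n) (b : Hyp n) (w : (Fin n → k) × (Fin n → k)) :
    Phi k A i0 i1 (sp k n b w.1, sp k n b w.2) = funRep k n (K + 1) b (Phi k A i0 i1 w) := by
  rw [Phi_apply, Phi_apply, map_sum]
  symm
  refine Fintype.sum_equiv (Equiv.mulLeft b) _ _ fun a => ?_
  rw [map_smul, Equiv.coe_mulLeft, map_mul]
  have : cf n i0 i1 (sp k n b w.1, sp k n b w.2) (b * a) = cf n i0 i1 w a := by
    unfold cf
    simp only [_root_.mul_inv_rev, map_mul]
    have h : ∀ u, sp k n b⁻¹ (sp k n b u) = u := by
      intro u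
      rw [← Module.End.mul_apply, ← map_mul, inv_mul_cancel, map_one]
      rfl
    simp only [Module.End.mul_apply, h]
  rw [this]
  rfl

theorem cf_neg1 (i0 i1 : Fin n) (w : (Fin n → k) × (Fin n → k)) (b : Hyp n) :
    cf n i0 i1 w (b * neg1 n) = - cf n i0 i1 w b := by
  unfold cf
  rw [_root_.mul_inv_rev, neg1_inv]
  simp only [map_mul, Module.End.mul_apply, sp_neg1, Pi.neg_apply]
  ring

theorem Phi_eval (hA : Code n r K A) (i0 i1 : Fin n) (w : (Fin n → k) × (Fin n → k))
    (b : Hyp n) : Phi k A i0 i1 w (fun j => act b (A j)) = 2 * cf n i0 i1 w b := by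
  classical
  have h0 : 0 < n := by have := hA.lt; omega
  rw [Phi_apply, Finset.sum_apply]
  have hne : b ≠ b * neg1 n := by
    intro h
    have h1 : (1 : Hyp n) = neg1 n := mul_left_cancel (a := b) (by rw [mul_one]; exact h)
    have h2 := congrFun (congrArg Hyp.flip h1) ⟨0, h0⟩
    exact absurd h2 (by simp [one_def, neg1])
  have hz : ∀ a : Hyp n, a ∉ ({b, b * neg1 n} : Finset (Hyp n)) →
      (cf n i0 i1 w a • funRep k n (K + 1) a (zc k A)) (fun j => act b (A j)) = 0 := by
    intro a ha
    rw [Pi.smul_apply, funRep_apply]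
    have : zc k A (fun j => act a⁻¹ (act b (A j))) = 0 := by
      by_contra hne
      obtain ⟨π, hπ⟩ := zc_ne A hne
      have h1 : a⁻¹ * b = 1 ∨ a⁻¹ * b = neg1 n := by
        apply hA.stab
        intro j
        refine ⟨π.symm j, ?_⟩
        have := hπ (π.symm j)
        rw [Equiv.apply_symm_apply, ← act_mul] at this
        exact this
      apply ha
      simp only [Finset.mem_insert, Finset.mem_singleton]
      rcases h1 with h1 | h1
      · left
        rw [inv_mul_eq_one] at h1
        exact h1
      · right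
        have h2 : b = a * neg1 n := by rw [← h1, mul_inv_cancel_left]
        rw [h2, mul_assoc, neg1_sq, mul_one]
    rw [this, smul_zero]
  rw [← Finset.sum_subset (Finset.subset_univ ({b, b * neg1 n} : Finset (Hyp n)))
    (fun a _ ha => hz a ha), Finset.sum_pair hne]
  rw [Pi.smul_apply, Pi.smul_apply, funRep_apply, funRep_apply, cf_neg1]
  have h1 : (fun j => act b⁻¹ (act b (A j))) = A := by
    funext j
    rw [← act_mul, inv_mul_cancel, act_one]
  have h2 : (fun j => act (b * neg1 n)⁻¹ (act b (A j))) = fun j => anti (A j) := by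
    funext j
    rw [← act_mul, _root_.mul_inv_rev, inv_mul_cancel_right, neg1_inv, act_neg1]
  rw [h1, h2, zc_self A hA, zc_anti A hA]
  simp only [smul_eq_mul]
  ring

theorem Phi_mem (hA : Code n r K A) (i0 i1 : Fin n) (w : (Fin n → k) × (Fin n → k)) :
    Phi k A i0 i1 w ∈ Cycles k n r K := by
  rw [Phi_apply]
  refine Submodule.sum_mem _ fun a _ => Submodule.smul_mem _ _ (cycles_stable a ?_)
  unfold Cycles
  rw [if_neg hA.pos]
  exact ⟨zc_mem A hA, bd_zc A hA⟩

/-- Boundaries vanish on the translates of the facet `A`. -/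
theorem boundary_eval [CharZero k] (hA : Code n r K A) {f : (Fin (K + 1) → Q n) → k}
    (hf : f ∈ Boundaries k n r K) (b : Hyp n) : f (fun j => act b (A j)) = 0 := by
  obtain ⟨g, hg, rfl⟩ := hf
  show ∑ x : Q n, g (Fin.cons x fun j => act b (A j)) = 0
  apply Finset.sum_eq_zero
  intro x _
  by_cases hx : ∃ j, x = act b (A j)
  · obtain ⟨j, rfl⟩ := hx
    have h1 := hg.1 (Equiv.swap 0 j.succ) (Fin.cons (act b (A j)) fun j => act b (A j))
    rw [Equiv.Perm.sign_swap (Fin.succ_ne_zero j).symm] at h1
    have h2 : (fun i => (Fin.cons (act b (A j)) (fun j => act b (A j)) : Fin (K + 2) → Q n)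
        (Equiv.swap 0 j.succ i)) = Fin.cons (act b (A j)) fun j => act b (A j) := by
      funext i
      by_cases hi0 : i = 0
      · subst hi0
        rw [Equiv.swap_apply_left, Fin.cons_succ, Fin.cons_zero]
      · by_cases hij : i = j.succ
        · subst hij
          rw [Equiv.swap_apply_right, Fin.cons_succ, Fin.cons_zero]
        · rw [Equiv.swap_apply_of_ne_of_ne hi0 hij]
    rw [h2] at h1
    simp only [Units.val_neg, Units.val_one, Int.cast_neg, Int.cast_one, neg_mul, one_mul] at h1
    have h3 : (2 : k) * g (Fin.cons (act b (A j)) fun j => act b (A j)) = 0 := by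
      linear_combination h1
    exact (mul_eq_zero.1 h3).resolve_left two_ne_zero
  · push Not at hx
    apply hg.2
    intro hall
    obtain ⟨j, hj⟩ := hA.max (act b⁻¹ x) (fun j h => by
      apply hx j
      rw [← h, ← act_mul, mul_inv_cancel, act_one])
    have h1 := hall 0 j.succ
    rw [Fin.cons_zero, Fin.cons_succ, ← dist_act b⁻¹, ← act_mul b⁻¹ b, inv_mul_cancel,
      act_one] at h1
    omega

theorem cf_zero [CharZero k] {i0 i1 : Fin n} (h01 : i0 ≠ i1) {w : (Fin n → k) × (Fin n → k)}
    (h : ∀ b, cf n i0 i1 w b = 0) : w = 0 := by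
  have h' : ∀ b : Hyp n, sp k n b w.1 i0 + sp k n b w.2 i1 = 0 := by
    intro b
    have := h b⁻¹
    unfold cf at this
    rwa [inv_inv] at this
  have h1 : w.1 = 0 := by
    funext p
    have e1 := h' ⟨Equiv.swap i0 p, fun _ => false⟩
    have e2 := h' ⟨Equiv.swap i0 p, fun i => decide (i = i0)⟩
    simp only [sp_apply, sgn, Equiv.symm_swap, Equiv.swap_apply_left] at e1 e2
    simp [h01.symm] at e1 e2
    have : (2 : k) * w.1 p = 0 := by linear_combination e1 - e2
    exact (mul_eq_zero.1 this).resolve_left two_ne_zero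
  have h2 : w.2 = 0 := by
    funext p
    have e1 := h' ⟨Equiv.swap i1 p, fun _ => false⟩
    simp only [sp_apply, sgn, Equiv.symm_swap, Equiv.swap_apply_left, h1] at e1
    simpa using e1
  exact Prod.ext h1 h2

/-- A code with trivial stabiliser makes the homology not multiplicity-free. -/
theorem not_multiplicityFree [CharZero k] (hA : Code n r K A) (h2 : 2 ≤ n) :
    ¬ MultiplicityFree (homRep k n r K) := by
  intro hM
  have i0 : Fin n := ⟨0, by omega⟩
  apply hM (Fin n → k) (sp k n) (sp_irreducible (by omega))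
  let L : ((Fin n → k) × (Fin n → k)) →ₗ[k] Cycles k n r K :=
    (Phi k A ⟨0, by omega⟩ ⟨1, by omega⟩).codRestrict _ (Phi_mem A hA _ _)
  let f : ((Fin n → k) × (Fin n → k)) →ₗ[k] Homology k n r K :=
    (Submodule.mkQ ((Boundaries k n r K).submoduleOf (Cycles k n r K))).comp L
  refine ⟨LinearMap.intertwiningMap_of_isIntertwiningMap _ _ f ?_, ?_⟩
  · intro b w
    have h1 : L ((sp k n).prod (sp k n) b w) =
        ((funRep k n (K + 1)).subrepresentation (Cycles k n r K)
          (fun a _ hf => cycles_stable a hf)) b (L w) := by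
      apply Subtype.ext
      exact Phi_equivariant A _ _ b w
    show Submodule.mkQ _ (L _) = _
    rw [h1]
    rfl
  · rw [injective_iff_map_eq_zero]
    intro w hw
    have h1 : L w ∈ (Boundaries k n r K).submoduleOf (Cycles k n r K) :=
      (Submodule.Quotient.mk_eq_zero _).1 hw
    have h3 : Phi k A ⟨0, by omega⟩ ⟨1, by omega⟩ w ∈ Boundaries k n r K := h1
    apply cf_zero (i0 := ⟨0, by omega⟩) (i1 := ⟨1, by omega⟩) (by simp)
    intro b
    have h4 := Phi_eval A hA ⟨0, by omega⟩ ⟨1, by omega⟩ w b
    rw [boundary_eval A hA h3 b] at h4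
    exact (mul_eq_zero.1 h4.symm).resolve_left two_ne_zero

end cyc


/-! ### Definitions used in the statement -/

section statement

variable (k : Type) [Field k]

/-- The space of functions of `m` vertices of the cube. -/
def Fn (k : Type) (n m : ℕ) : Type := (Fin m → Q n) → k

instance instACG (n m : ℕ) : AddCommGroup (Fn k n m) := Pi.addCommGroup

instance instMod (n m : ℕ) : Module k (Fn k n m) := Pi.module _ _ _

/-- The map `f ↦ (v ↦ f (a v_1, ..., a v_m))`. -/
def pull {n : ℕ} (m : ℕ) (a : Hyp n) : Fn k n m →ₗ[k] Fn k n m where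
  toFun f := fun v => f (fun j => act a (v j))
  map_add' _ _ := rfl
  map_smul' _ _ := rfl

theorem pull_one (n m : ℕ) : pull k m (1 : Hyp n)⁻¹ = 1 := (funRep k n m).map_one'

theorem pull_mul (n m : ℕ) (a b : Hyp n) : pull k m (a * b)⁻¹ = pull k m a⁻¹ * pull k m b⁻¹ :=
  (funRep k n m).map_mul' a b

/-- The action of the hyperoctahedral group on functions of `m` vertices. -/
def fnRep (n m : ℕ) : Representation k (Hyp n) (Fn k n m) where
  toFun a := pull k m a⁻¹
  map_one' := pull_one k n m
  map_mul' := pull_mul k n m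

/-- Simplicial chains of the Vietoris-Rips complex `VR(Q_n; r)` on `m` vertices: the alternating
functions of `m` vertices (the value at `(v_1, ..., v_m)` is the coefficient of the oriented
simplex `[v_1, ..., v_m]`) that vanish unless all distances of the vertices are at most `r`. -/
def chains (n r m : ℕ) : Submodule k (Fn k n m) where
  carrier := {f | (∀ (π : Equiv.Perm (Fin m)) (v : Fin m → Q n),
      f (fun j => v (π j)) = ((Equiv.Perm.sign π : ℤ) : k) * f v) ∧
    ∀ v : Fin m → Q n, (¬ ∀ i j, hammingDist (v i) (v j) ≤ r) → f v = 0}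
  zero_mem' := by exact (Chains k n r m).zero_mem'
  add_mem' := by exact (Chains k n r m).add_mem'
  smul_mem' := by exact (Chains k n r m).smul_mem'

/-- The boundary map: the coefficient of `[v_1, ..., v_m]` in the boundary of `f` is the sum of
the coefficients `f(x, v_1, ..., v_m)` over all vertices `x`. -/
def bdry (n m : ℕ) : Fn k n (m + 1) →ₗ[k] Fn k n m where
  toFun f := fun v => ∑ x : Q n, f (Fin.cons x v)
  map_add' := by exact (bd k n m).map_add'
  map_smul' := by exact (bd k n m).map_smul'

/-- The `i`-cycles (all `0`-chains are cycles). -/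
def cycles (n r i : ℕ) : Submodule k (Fn k n (i + 1)) :=
  if i = 0 then chains k n r (i + 1) else chains k n r (i + 1) ⊓ LinearMap.ker (bdry k n i)

/-- The `i`-boundaries. -/
def boundaries (n r i : ℕ) : Submodule k (Fn k n (i + 1)) :=
  (chains k n r (i + 2)).map (bdry k n (i + 1))

/-- The space of `i`-cycles. -/
def Cyc (n r i : ℕ) : Type := cycles k n r i

instance instCycACG (n r i : ℕ) : AddCommGroup (Cyc k n r i) :=
  Submodule.addCommGroup (cycles k n r i)

instance instCycMod (n r i : ℕ) : Module k (Cyc k n r i) := Submodule.module (cycles k n r i)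

/-- The `i`-boundaries as a subspace of the space of `i`-cycles. -/
def Bdy (n r i : ℕ) : Submodule k (Cyc k n r i) :=
  (boundaries k n r i).submoduleOf (cycles k n r i)

/-- The `i`-th homology of `VR(Q_n; r)` with coefficients in `k`. -/
def Hom (n r i : ℕ) : Type := Cyc k n r i ⧸ Bdy k n r i

instance instHomACG (n r i : ℕ) : AddCommGroup (Hom k n r i) :=
  Submodule.Quotient.addCommGroup (Bdy k n r i)

instance instHomMod (n r i : ℕ) : Module k (Hom k n r i) :=
  Submodule.Quotient.module (Bdy k n r i)

/-- The representation of the hyperoctahedral group on the `i`-cycles. -/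
def cycRep (n r i : ℕ) : Representation k (Hyp n) (Cyc k n r i) :=
  (fnRep k n (i + 1)).subrepresentation (cycles k n r i) (fun a _ hf => cycles_stable a hf)

/-- The representation of the hyperoctahedral group on the homology of `VR(Q_n; r)`. -/
def homologyRep (n r i : ℕ) : Representation k (Hyp n) (Hom k n r i) :=
  (cycRep k n r i).quotient (Bdy k n r i) (fun a _ hf => boundaries_stable a hf)

theorem transfer (n r i : ℕ) :
    MultiplicityFree (homologyRep k n r i) ↔ MultiplicityFree (homRep k n r i) := Iff.rfl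

end statement

/-! ### The explicit code in the 10-cube -/

/-- The facet, as binary numbers. -/
def AL : List ℕ := [
  14, 21, 22, 25, 32, 47, 55, 62, 72, 81, 82, 94, 107, 109, 116, 127, 132, 147, 152, 171, 173,
  174, 177, 194, 197, 203, 208, 223, 230, 251, 252, 257, 258, 263, 267, 269, 276, 298, 306,
  313, 323, 326, 344, 347, 356, 367, 371, 380, 396, 400, 407, 410, 420, 423, 425, 438, 445,
  457, 462, 469, 488, 498, 503, 505, 513, 523, 530, 532, 542, 547, 556, 568, 575, 583, 588,
  605, 614, 624, 633, 634, 636, 645, 649, 655, 662, 674, 691, 693, 698, 704, 714, 723, 732,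
  737, 748, 759, 778, 784, 789, 790, 796, 799, 805, 806, 809, 819, 832, 843, 845, 855, 865,
  866, 885, 888, 894, 903, 913, 920, 925, 926, 936, 944, 955, 962, 964, 982, 985, 986, 992,
  995, 997, 1007, 1020]

/-- The antipodal code. -/
def CL : List ℕ := AL ++ AL.map (fun a => a ^^^ 1023)

/-- Binary digits. -/
def bits (a : ℕ) : Q 10 := fun i => a.testBit i

/-- Number of ones among the ten lowest digits. -/
def pop (x : ℕ) : ℕ :=
  (if x.testBit 0 then 1 else 0) + ((if x.testBit 1 then 1 else 0) +
  ((if x.testBit 2 then 1 else 0) + ((if x.testBit 3 then 1 else 0) +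
  ((if x.testBit 4 then 1 else 0) + ((if x.testBit 5 then 1 else 0) +
  ((if x.testBit 6 then 1 else 0) + ((if x.testBit 7 then 1 else 0) +
  ((if x.testBit 8 then 1 else 0) + ((if x.testBit 9 then 1 else 0) + 0)))))))))

theorem dist_bits (a b : ℕ) : hammingDist (bits a) (bits b) = pop (a ^^^ b) := by
  unfold hammingDist
  rw [Finset.card_filter]
  have h : ∀ i : Fin 10, (if bits a i ≠ bits b i then 1 else 0) =
      (if (a ^^^ b).testBit i then 1 else 0) := by
    intro i
    rw [Nat.testBit_xor]
    unfold bits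
    generalize a.testBit i = x
    generalize b.testBit i = y
    cases x <;> cases y <;> rfl
  rw [Finset.sum_congr rfl fun i _ => h i]
  simp only [Fin.sum_univ_succ, Fin.sum_univ_zero]
  rfl

theorem exists_bits (x : Q 10) : ∃ a < 1024, bits a = x := by
  refine ⟨Nat.ofBits x, by simpa using Nat.ofBits_lt_two_pow x, ?_⟩
  funext i
  simp [bits, Nat.testBit_ofBits_lt]

theorem bits_inj {a b : ℕ} (ha : a < 1024) (hb : b < 1024) (h : bits a = bits b) : a = b := by
  apply Nat.eq_of_testBit_eq
  intro i
  by_cases hi : i < 10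
  · exact congrFun h ⟨i, hi⟩
  · have e : ∀ c < 1024, c.testBit i = false := by
      intro c hc
      apply Nat.testBit_lt_two_pow
      calc c < 2 ^ 10 := by norm_num; exact hc
        _ ≤ 2 ^ i := Nat.pow_le_pow_right (by norm_num) (by omega)
    rw [e a ha, e b hb]

theorem anti_bits (a : ℕ) : anti (bits a) = bits (a ^^^ 1023) := by
  funext j
  have h : Nat.testBit 1023 (j : ℕ) = true := by
    rw [show (1023 : ℕ) = 2 ^ 10 - 1 by norm_num, Nat.testBit_two_pow_sub_one]
    simp [j.2]
  simp only [bits, anti, Nat.testBit_xor, h]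
  cases Nat.testBit a j <;> rfl

/-- The bit mask of a list of numbers. -/
def mask (l : List ℕ) : ℕ := l.foldr (fun a m => 2 ^ a ||| m) 0

theorem testBit_mask (l : List ℕ) (x : ℕ) : (mask l).testBit x = true ↔ x ∈ l := by
  induction l with
  | nil => simp [mask]
  | cons a l ih =>
    have h : mask (a :: l) = 2 ^ a ||| mask l := rfl
    rw [h, Nat.testBit_or, Bool.or_eq_true, ih, Nat.testBit_two_pow, List.mem_cons,
      decide_eq_true_iff]
    constructor
    · rintro (h | h)
      · exact Or.inl h.symm
      · exact Or.inr h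
    · rintro (h | h)
      · exact Or.inl h.symm
      · exact Or.inr h

/-- The bit mask of `AL`. -/
def ML : ℕ := 11236955341016546975927974750797126606476478468870851540507707288357502604763428923997641063002035550116004982990584375863742024627281948395143111992036357097011799426307145181414314008719474417633109908384227185296153454883819745949441168319020987160935116567167775187926498472940533877859005542863982313472

theorem mask_AL : mask AL = ML := by decide +kernel

theorem mem_AL (x : ℕ) : ML.testBit x = true ↔ x ∈ AL := by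
  rw [← mask_AL]; exact testBit_mask AL x

theorem AL_nodup : AL.Nodup := by decide +kernel

theorem AL_lt : ∀ c ∈ AL, c < 1024 := by decide +kernel

theorem CL_nodup : CL.Nodup := by decide +kernel

theorem CL_lt : ∀ c ∈ CL, c < 1024 := by decide +kernel

theorem pop_small : ∀ x < 1024, pop x < 2 → x = 0 ∨ ∃ i < 10, x = 2 ^ i := by decide +kernel

theorem pop_large : ∀ x < 1024, 8 < pop x → x = 1023 ∨ ∃ i < 10, x = 1023 ^^^ 2 ^ i := by
  decide +kernel

theorem pair_check : (AL.all fun a => !ML.testBit (a ^^^ 1023) &&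
    (List.range 10).all fun i => !ML.testBit (a ^^^ 2 ^ i) &&
      !ML.testBit (a ^^^ (1023 ^^^ 2 ^ i))) = true := by
  decide +kernel

theorem max_check : ((List.range 1024).all fun x => ML.testBit x || ML.testBit (x ^^^ 1023) ||
    (List.range 10).any fun i => ML.testBit (x ^^^ (1023 ^^^ 2 ^ i))) = true := by
  decide +kernel

theorem AL_pair (a : ℕ) (ha : a ∈ AL) (b : ℕ) (hb : b ∈ AL) (hab : a ≠ b) :
    2 ≤ pop (a ^^^ b) ∧ pop (a ^^^ b) ≤ 8 := by
  have hlt : a ^^^ b < 1024 :=
    Nat.xor_lt_two_pow (n := 10) (AL_lt a ha) (AL_lt b hb)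
  have hb' : b = a ^^^ (a ^^^ b) := by rw [← Nat.xor_assoc, Nat.xor_self, Nat.zero_xor]
  have hc := List.all_eq_true.1 pair_check a ha
  rw [Bool.and_eq_true] at hc
  have hc1 : ML.testBit (a ^^^ 1023) ≠ true := by simpa using hc.1
  have hc2 : ∀ i < 10, ML.testBit (a ^^^ 2 ^ i) ≠ true ∧
      ML.testBit (a ^^^ (1023 ^^^ 2 ^ i)) ≠ true := by
    intro i hi
    have := List.all_eq_true.1 hc.2 i (List.mem_range.2 hi)
    simpa using this
  constructor
  · by_contra hlt2
    rcases pop_small _ hlt (not_le.1 hlt2) with h | ⟨i, hi, h⟩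
    · apply hab
      rw [h, Nat.xor_zero] at hb'
      exact hb'.symm
    · rw [h] at hb'
      apply (hc2 i hi).1
      rw [← hb']
      exact (mem_AL b).2 hb
  · by_contra hlt2
    rcases pop_large _ hlt (not_le.1 hlt2) with h | ⟨i, hi, h⟩
    · rw [h] at hb'
      apply hc1
      rw [← hb']
      exact (mem_AL b).2 hb
    · rw [h] at hb'
      apply (hc2 i hi).2
      rw [← hb']
      exact (mem_AL b).2 hb

theorem pop_nine : pop 1023 = 10 ∧ ∀ i < 10, pop (1023 ^^^ 2 ^ i) = 9 := by decide +kernel

theorem AL_max (x : ℕ) (hx : x < 1024) (hxA : x ∉ AL) : ∃ a ∈ AL, 8 < pop (x ^^^ a) := by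
  have hc := List.all_eq_true.1 max_check x (List.mem_range.2 hx)
  rw [Bool.or_eq_true, Bool.or_eq_true] at hc
  rcases hc with (h | h) | h
  · exact absurd ((mem_AL x).1 h) hxA
  · refine ⟨_, (mem_AL _).1 h, ?_⟩
    rw [← Nat.xor_assoc, Nat.xor_self, Nat.zero_xor, pop_nine.1]
    norm_num
  · obtain ⟨i, hi, h⟩ := List.any_eq_true.1 h
    refine ⟨_, (mem_AL _).1 h, ?_⟩
    rw [← Nat.xor_assoc, Nat.xor_self, Nat.zero_xor, pop_nine.2 i (List.mem_range.1 hi)]
    norm_num

/-- Number of ones among the ten lowest digits, computed in parallel. -/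
def sw1 (x : ℕ) : ℕ := x - ((x >>> 1) &&& 341)
/-- second stage -/
def sw2 (x : ℕ) : ℕ := (x &&& 819) + ((x >>> 2) &&& 819)
/-- third stage -/
def sw3 (x : ℕ) : ℕ := (x &&& 15) + ((x >>> 4) &&& 15) + (x >>> 8)
/-- Number of ones among the ten lowest digits, computed in parallel. -/
def pp (x : ℕ) : ℕ := sw3 (sw2 (sw1 x))

theorem pp_eq : ∀ x < 1024, pp x = pop x := by decide +kernel

theorem count_check : (CL.all fun c => !(CL.countP (fun y => pp (c ^^^ y) == 2) == 11) ||
    c == 462 || c == 561) = true := by
  decide +kernel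

theorem count_pp (c : ℕ) (hc : c ∈ CL) :
    CL.countP (fun y => pp (c ^^^ y) == 2) = CL.countP (fun y => pop (c ^^^ y) = 2) := by
  apply List.countP_congr
  intro y hy
  rw [pp_eq _ (Nat.xor_lt_two_pow (n := 10) (CL_lt c hc) (CL_lt y hy))]
  simp

theorem CL_count (c : ℕ) (hc : c ∈ CL) (h : CL.countP (fun y => pop (c ^^^ y) = 2) = 11) :
    c = 462 ∨ c = 561 := by
  have h1 := List.all_eq_true.1 count_check c hc
  rw [count_pp c hc, h] at h1
  simpa using h1

theorem CL_count' : CL.countP (fun y => pop (462 ^^^ y) = 2) = 11 := by decide +kernel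

/-- Coordinate degrees at the special point. -/
def dg (i : ℕ) : ℕ := CL.countP (fun y => pop (462 ^^^ y) = 4 ∧ y.testBit i ≠ Nat.testBit 462 i)

theorem dg_inj : ∀ i < 10, ∀ j < 10, dg i = dg j → i = j := by decide +kernel

/-! ### The stabiliser of the code -/

/-- The antipodal code in the cube. -/
def CC : Finset (Q 10) := CL.toFinset.image bits

theorem mem_CC (x : Q 10) : x ∈ CC ↔ ∃ c ∈ CL, bits c = x := by
  unfold CC
  rw [Finset.mem_image]
  simp only [List.mem_toFinset]

theorem card_gen (l : List ℕ) (hn : l.Nodup) (hl : ∀ c ∈ l, c < 1024) (p : Q 10 → Prop)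
    [DecidablePred p] :
    ((l.toFinset.image bits).filter p).card = l.countP (fun c => p (bits c)) := by
  rw [Finset.filter_image, Finset.card_image_of_injOn]
  · rw [List.countP_eq_length_filter, ← List.toFinset_card_of_nodup (hn.filter _),
      List.toFinset_filter]
    congr 1
    ext c
    rw [Finset.mem_filter, Finset.mem_filter, decide_eq_true_iff]
  · intro c hc d hd h
    have hc' : c ∈ l := List.mem_toFinset.1 (Finset.mem_filter.1 (Finset.mem_coe.1 hc)).1
    have hd' : d ∈ l := List.mem_toFinset.1 (Finset.mem_filter.1 (Finset.mem_coe.1 hd)).1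
    exact bits_inj (hl c hc') (hl d hd') h

theorem card_CC (p : Q 10 → Prop) [DecidablePred p] :
    (CC.filter p).card = CL.countP (fun c => p (bits c)) :=
  card_gen CL CL_nodup CL_lt p

theorem act_injective (a : Hyp 10) : Function.Injective (act a) := (actEquiv a).injective

theorem image_gen (C : Finset (Q 10)) (a : Hyp 10) (h : ∀ x ∈ C, act a x ∈ C) :
    C.image (act a) = C := by
  apply Finset.eq_of_subset_of_card_le
  · intro x hx
    obtain ⟨y, hy, rfl⟩ := Finset.mem_image.1 hx
    exact h y hy
  · rw [Finset.card_image_of_injective _ (act_injective a)]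

theorem filter_gen (C : Finset (Q 10)) (a : Hyp 10) (h : ∀ x ∈ C, act a x ∈ C)
    (p q : Q 10 → Prop)
    [DecidablePred p] [DecidablePred q] (hpq : ∀ x, q (act a x) ↔ p x) :
    (C.filter q).card = (C.filter p).card := by
  have h1 : C.filter q = (C.filter p).image (act a) := by
    conv_lhs => rw [← image_gen C a h]
    rw [Finset.filter_image]
    congr 1
    ext x
    rw [Finset.mem_filter, Finset.mem_filter, hpq]
  rw [h1, Finset.card_image_of_injective _ (act_injective a)]

theorem filter_card (a : Hyp 10) (h : ∀ x ∈ CC, act a x ∈ CC) (p q : Q 10 → Prop)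
    [DecidablePred p] [DecidablePred q] (hpq : ∀ x, q (act a x) ↔ p x) :
    (CC.filter q).card = (CC.filter p).card :=
  filter_gen CC a h p q hpq

theorem mem_462 : bits 462 ∈ CC := (mem_CC _).2 ⟨462, by decide +kernel, rfl⟩

theorem anti_CC {x : Q 10} (h : x ∈ CC) : anti x ∈ CC := by
  obtain ⟨c, hc, rfl⟩ := (mem_CC x).1 h
  rw [anti_bits]
  refine (mem_CC _).2 ⟨_, ?_, rfl⟩
  unfold CL at hc ⊢
  rcases List.mem_append.1 hc with hc | hc
  · exact List.mem_append_right _ (List.mem_map.2 ⟨c, hc, rfl⟩)
  · obtain ⟨d, hd, rfl⟩ := List.mem_map.1 hc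
    apply List.mem_append_left
    rwa [Nat.xor_assoc, Nat.xor_self, Nat.xor_zero]

theorem special (a : Hyp 10) (h : ∀ x ∈ CC, act a x ∈ CC) :
    act a (bits 462) = bits 462 ∨ act a (bits 462) = anti (bits 462) := by
  obtain ⟨c, hc, hc1⟩ := (mem_CC _).1 (h _ mem_462)
  have h1 : (CC.filter fun y => hammingDist (act a (bits 462)) y = 2).card =
      (CC.filter fun y => hammingDist (bits 462) y = 2).card := by
    apply filter_card a h
    intro x
    rw [dist_act]
  rw [card_CC, card_CC, ← hc1] at h1
  simp only [dist_bits] at h1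
  rw [CL_count'] at h1
  rcases CL_count c hc h1 with h2 | h2
  · left; rw [← hc1, h2]
  · right; rw [← hc1, h2, anti_bits, show (462 ^^^ 1023 : ℕ) = 561 from rfl]

theorem stab_one (b : Hyp 10) (h : ∀ x ∈ CC, act b x ∈ CC) (h0 : act b (bits 462) = bits 462) :
    b = 1 := by
  have key : ∀ (y : Q 10) (i : Fin 10),
      act b y (b.perm i) ≠ bits 462 (b.perm i) ↔ y i ≠ bits 462 i := by
    intro y i
    have h1 : bits 462 (b.perm i) = xor (b.flip (b.perm i)) (bits 462 i) := by
      have h2 : act b (bits 462) (b.perm i) = xor (b.flip (b.perm i)) (bits 462 i) := by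
        simp [act]
      rw [h0] at h2
      exact h2
    have h3 : act b y (b.perm i) = xor (b.flip (b.perm i)) (y i) := by simp [act]
    rw [h1, h3]
    generalize b.flip (b.perm i) = s
    generalize y i = t
    generalize bits 462 i = u
    cases s <;> cases t <;> cases u <;> simp
  have hd : ∀ i : Fin 10,
      (CC.filter fun y => hammingDist (bits 462) y = 4 ∧ y i ≠ bits 462 i).card = dg i := by
    intro i
    rw [card_CC]
    unfold dg
    apply List.countP_congr
    intro y hy
    simp only [dist_bits, bits]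
  have hp : ∀ i : Fin 10, b.perm i = i := by
    intro i
    have h1 := filter_card b h (fun y => hammingDist (bits 462) y = 4 ∧ y i ≠ bits 462 i)
      (fun y => hammingDist (bits 462) y = 4 ∧ y (b.perm i) ≠ bits 462 (b.perm i)) (by
        intro x
        rw [key x i]
        conv_lhs => rw [← h0]
        rw [dist_act]
        constructor
        · rintro ⟨h1, h2⟩
          exact ⟨h1, by rwa [h0] at h2⟩
        · rintro ⟨h1, h2⟩
          exact ⟨h1, by rwa [h0]⟩)
    rw [hd, hd] at h1
    exact Fin.ext (dg_inj _ (b.perm i).2 _ i.2 h1)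
  have hperm : b.perm = 1 := Equiv.ext fun i => by rw [hp i]; rfl
  have hflip : b.flip = fun _ => false := by
    funext i
    have h1 := congrFun h0 i
    simp only [act, hperm] at h1
    have h2 : (1 : Equiv.Perm (Fin 10)).symm i = i := rfl
    rw [h2] at h1
    cases hb : b.flip i
    · rfl
    · rw [hb] at h1
      cases hx : bits 462 i <;> rw [hx] at h1 <;> exact absurd h1 (by simp)
  ext1
  · exact hperm
  · exact hflip

theorem stab_CC (a : Hyp 10) (h : ∀ x ∈ CC, act a x ∈ CC) : a = 1 ∨ a = neg1 10 := by
  rcases special a h with h1 | h1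
  · exact Or.inl (stab_one a h h1)
  · right
    have h2 : neg1 10 * a = 1 := by
      apply stab_one
      · intro x hx
        rw [act_mul, act_neg1]
        exact anti_CC (h x hx)
      · rw [act_mul, act_neg1, h1, anti_anti]
    have h3 := congrArg (fun g => neg1 10 * g) h2
    simp only [← mul_assoc, neg1_sq, one_mul, mul_one] at h3
    exact h3

/-- The transversal of the code. -/
def AA (j : Fin 133) : Q 10 := bits (AL.get (Fin.cast (by decide +kernel) j))

theorem mem_AL_AA (c : ℕ) (hc : c ∈ AL) : ∃ j, AA j = bits c := by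
  obtain ⟨j, hj⟩ := List.get_of_mem hc
  refine ⟨Fin.cast (by decide +kernel) j, ?_⟩
  unfold AA
  rw [← hj]
  rfl

theorem AA_mem (j : Fin 133) : ∃ c ∈ AL, AA j = bits c := ⟨_, List.get_mem _ _, rfl⟩

theorem AA_inj {j l : Fin 133} (h : j ≠ l) : ∃ c ∈ AL, ∃ d ∈ AL, c ≠ d ∧ AA j = bits c ∧
    AA l = bits d := by
  refine ⟨_, List.get_mem _ _, _, List.get_mem _ _, ?_, rfl, rfl⟩
  intro h1
  apply h
  have h2 := (List.nodup_iff_injective_get.1 AL_nodup) h1
  exact Fin.ext (by simpa using congrArg Fin.val h2)

theorem AA_CC (x : Q 10) : x ∈ CC ↔ ∃ j, x = AA j ∨ x = anti (AA j) := by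
  rw [mem_CC]
  constructor
  · rintro ⟨c, hc, rfl⟩
    unfold CL at hc
    rcases List.mem_append.1 hc with hc | hc
    · obtain ⟨j, hj⟩ := mem_AL_AA c hc
      exact ⟨j, Or.inl hj.symm⟩
    · obtain ⟨d, hd, rfl⟩ := List.mem_map.1 hc
      obtain ⟨j, hj⟩ := mem_AL_AA d hd
      exact ⟨j, Or.inr (by rw [hj, anti_bits])⟩
  · rintro ⟨j, h⟩
    obtain ⟨c, hc, hj⟩ := AA_mem j
    rcases h with rfl | rfl
    · exact ⟨c, List.mem_append_left _ hc, hj.symm⟩
    · exact ⟨c ^^^ 1023, List.mem_append_right _ (List.mem_map.2 ⟨c, hc, rfl⟩),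
        by rw [hj, anti_bits]⟩

theorem code : Code 10 8 132 AA where
  lt := by norm_num
  pair j l h := by
    obtain ⟨c, hc, d, hd, hcd, h1, h2⟩ := AA_inj h
    rw [h1, h2]
    have h3 := AL_pair c hc d hd hcd
    have h4 := dist_anti (bits c) (bits d)
    rw [dist_bits] at h4
    rw [dist_bits]
    omega
  max x hx := by
    obtain ⟨a, ha, rfl⟩ := exists_bits x
    have h1 : a ∉ AL := by
      intro h
      obtain ⟨j, hj⟩ := mem_AL_AA a h
      exact hx j hj.symm
    obtain ⟨c, hc, h2⟩ := AL_max a ha h1
    obtain ⟨j, hj⟩ := mem_AL_AA c hc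
    refine ⟨j, ?_⟩
    rw [hj, dist_bits]
    exact h2
  stab a h := by
    apply stab_CC
    intro x hx
    obtain ⟨j, hj⟩ := (AA_CC x).1 hx
    obtain ⟨l, hl⟩ := h j
    rw [AA_CC]
    refine ⟨l, ?_⟩
    rcases hj with rfl | rfl
    · exact hl
    · rw [act_anti]
      rcases hl with hl | hl
      · exact Or.inr (by rw [hl])
      · exact Or.inl (by rw [hl, anti_anti])
  odd := ⟨66, by norm_num⟩
  pos := by norm_num

/-- **The homology of the Vietoris-Rips complexes of the hypercubes is not always
multiplicity-free.** -/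
theorem result (k : Type) [Field k] [CharZero k] :
    ¬ (∀ n r i : ℕ, 1 ≤ n → MultiplicityFree (homologyRep k n r i)) ∧
    ¬ MultiplicityFree (homologyRep k 10 8 132) := by
  have h : ¬ MultiplicityFree (homologyRep k 10 8 132) := fun h =>
    not_multiplicityFree (k := k) AA code (by norm_num) ((transfer k 10 8 132).1 h)
  exact ⟨fun h1 => h (h1 10 8 132 (by norm_num)), h⟩

end Pool.Agent.Results.MP_d0402e_co.NotMultFree
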